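import Pool.Agent.Run7.h886.PL.Seq
import Pool.Agent.Run7.h886.TG.Port

/-!
# The orders of the higher Selmer groups (helper886)

`#Sel(J, 2 ^ (n + 1)) ≤ #Sel(J, 2 ^ n) * #Sel(J, 2)`.
-/

set_option autoImplicit false
set_option linter.all false

open Polynomial IsDedekindDomain
open scoped Classical

namespace Run7.h886.PL

open Pool.Agent.N352.JB
open Pool.Agent.Y160.SE
open Pool.Agent.TH115.GD (incl rs ak)
open Pool.Agent.Y713.Jac (J mapJ Gal Cochain IsCocycle IsCoboundary IsTrivialOver)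
open Pool.Agent.N106.JB (ad mu ad_mu mu_ad ad_inj ad_mul ad_div ad_pow ad_mapJ)
open Run7.h286.PLC (SelCoc Cohom SelH)
open Run7.h270.PL.MWB (eqv exact_of coc mapJ_mapJ coc_sel)

section

variable {K : Type} [Field K] {f : K[X]}

theorem grp3 {G : Type} [CommGroup G] (a b c d e : G) (h : a = b * c) (h2 : a = d * e) :
    c = d * e / b := by
  rw [← h2, h, mul_div_cancel_left]

theorem grp4 {G : Type} [CommGroup G] (a b c d : G) : a / b * c / d = a * c / (b * d) := by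
  rw [div_mul_eq_mul_div, div_div]

theorem grp5 {G : Type} [CommGroup G] (a b : G) (n : ℕ) (h : a ^ 2 ^ (n + 1) = 1)
    (h2 : b ^ 2 = 1) : (a * b) ^ 2 ^ (n + 1) = 1 := by
  rw [mul_pow, h, one_mul, pow_succ', pow_mul, h2, one_pow]

theorem grp6 {G : Type} [CommGroup G] (a : G) (n : ℕ) (h : (a ^ 2) ^ 2 ^ n = 1) :
    a ^ 2 ^ (n + 1) = 1 := by
  rw [pow_succ', pow_mul, h]

theorem grp7 {G : Type} [CommGroup G] (a : G) (h : a ^ 2 ^ 0 = 1) : a = 1 := by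
  rwa [pow_zero, pow_one] at h

theorem exists_conj {F Ω Ω' : Type} [Field F] [Field Ω] [Field Ω'] [Algebra F Ω] [Algebra F Ω']
    [IsGalois F Ω] (ι ι' : Ω →ₐ[F] Ω') : ∃ g : Ω ≃ₐ[F] Ω, ∀ x, ι (g x) = ι' x := by
  letI : Algebra Ω Ω' := ι.toRingHom.toAlgebra
  haveI : IsScalarTower F Ω Ω' := IsScalarTower.of_algebraMap_eq fun x => (ι.commutes x).symm
  let g0 : Ω →ₐ[F] Ω := AlgHom.restrictNormal ι' Ω
  have hg0 : ∀ x, ι (g0 x) = ι' x := fun x => AlgHom.restrictNormal_commutes ι' Ω x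
  have hbij : Function.Bijective g0 := Algebra.IsAlgebraic.algHom_bijective g0
  exact ⟨AlgEquiv.ofBijective g0 hbij, hg0⟩

/-- The condition of local triviality does not depend on the embedding. -/
theorem triv_any {E : Type} [Field E] [Algebra K E] {c : Cochain 2 f} (hc : IsCocycle 2 f c)
    (h : IsTrivialOver 2 f E c) (ι' : SeparableClosure K →ₐ[K] SeparableClosure E) :
    ∃ P' : J 2 f (SeparableClosure E), ∀ (τ : Gal E) (σ : Gal K),
      (∀ x : SeparableClosure K, τ (ι' x) = ι' (σ x)) →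
      mapJ 2 f ι' (c σ) = mapJ 2 f (τ.toAlgHom.restrictScalars K) P' / P' := by
  obtain ⟨ι, P, hP⟩ := h
  obtain ⟨g, hg⟩ := exists_conj ι ι'
  refine ⟨P * mapJ 2 f ι (c g), fun τ σ' hτ => ?_⟩
  obtain ⟨σ, hσg⟩ : ∃ σ : Gal K, σ * g = g * σ' := ⟨g * σ' * g⁻¹, by group⟩
  have h1 : ∀ x, τ (ι x) = ι (σ x) := by
    intro x
    obtain ⟨y, rfl⟩ := g.surjective x
    have h3 : σ (g y) = g (σ' y) := by
      have := congrArg (fun e : Gal K => e y) hσg
      exact this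
    rw [hg, hτ, h3, hg]
  have h2 := hP τ σ h1
  have c1 : c (σ * g) = c σ * mapJ 2 f σ.toAlgHom (c g) := hc.2 σ g
  have c2 : c (g * σ') = c g * mapJ 2 f g.toAlgHom (c σ') := hc.2 g σ'
  rw [hσg] at c1
  have h4 : mapJ 2 f g.toAlgHom (c σ') = c σ * mapJ 2 f σ.toAlgHom (c g) / c g :=
    grp3 _ _ _ _ _ c2 c1
  have h5 : ι' = ι.comp g.toAlgHom := AlgHom.ext fun x => (hg x).symm
  have h6 : ι.comp σ.toAlgHom = (τ.toAlgHom.restrictScalars K).comp ι :=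
    AlgHom.ext fun x => (h1 x).symm
  have h7 : mapJ 2 f ι' (c σ') = mapJ 2 f ι (mapJ 2 f g.toAlgHom (c σ')) := by
    rw [mapJ_mapJ, h5]
  have h8 : mapJ 2 f ι (mapJ 2 f σ.toAlgHom (c g)) =
      mapJ 2 f (τ.toAlgHom.restrictScalars K) (mapJ 2 f ι (c g)) := by
    rw [mapJ_mapJ, mapJ_mapJ, h6]
  rw [h7, h4, _root_.map_div, map_mul, h2, h8, map_mul]
  exact grp4 _ _ _ _

theorem triv_mul {E : Type} [Field E] [Algebra K E] {c c' : Cochain 2 f} (hc' : IsCocycle 2 f c')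
    (h : IsTrivialOver 2 f E c) (h' : IsTrivialOver 2 f E c') :
    IsTrivialOver 2 f E fun σ => c σ * c' σ := by
  obtain ⟨ι, P, hP⟩ := h
  obtain ⟨P', hP'⟩ := triv_any hc' h' ι
  refine ⟨ι, P * P', fun τ σ hτ => ?_⟩
  rw [map_mul, hP τ σ hτ, hP' τ σ hτ, map_mul, mul_div_mul_comm]

theorem triv_inv {E : Type} [Field E] [Algebra K E] {c : Cochain 2 f}
    (h : IsTrivialOver 2 f E c) : IsTrivialOver 2 f E fun σ => (c σ)⁻¹ := by
  obtain ⟨ι, P, hP⟩ := h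
  refine ⟨ι, P⁻¹, fun τ σ hτ => ?_⟩
  rw [map_inv, hP τ σ hτ, map_inv, inv_div_inv, inv_div]

theorem triv_pow {E : Type} [Field E] [Algebra K E] {c : Cochain 2 f}
    (h : IsTrivialOver 2 f E c) (n : ℕ) : IsTrivialOver 2 f E fun σ => c σ ^ n := by
  obtain ⟨ι, P, hP⟩ := h
  refine ⟨ι, P ^ n, fun τ σ hτ => ?_⟩
  rw [map_pow, hP τ σ hτ, map_pow, div_pow]

theorem cocyc_inv {c : Cochain 2 f} (h : IsCocycle 2 f c) :
    IsCocycle 2 f fun σ => (c σ)⁻¹ := by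
  refine ⟨h.1.inv, fun σ τ => ?_⟩
  show (c (σ * τ))⁻¹ = (c σ)⁻¹ * mapJ 2 f σ.toAlgHom (c τ)⁻¹
  rw [h.2 σ τ, map_inv, mul_inv]

theorem cocyc_pow {c : Cochain 2 f} (h : IsCocycle 2 f c) (n : ℕ) :
    IsCocycle 2 f fun σ => c σ ^ n := by
  refine ⟨h.1.comp (fun x => x ^ n), fun σ τ => ?_⟩
  show c (σ * τ) ^ n = c σ ^ n * mapJ 2 f σ.toAlgHom (c τ ^ n)
  rw [h.2 σ τ, map_pow, mul_pow]

theorem coc_coc (hg : Good 2 (-1 : K) f) (Q : J 2 f (SeparableClosure K)) :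
    IsCocycle 2 f (coc Q) := by
  refine ⟨?_, fun σ τ => ?_⟩
  · have h1 := (Pool.Agent.N615.JB.lc K (SeparableClosure K) f hg (ad Q)).comp
      fun x => (mu x : J 2 f (SeparableClosure K)) / Q
    have e : (fun x => (mu x : J 2 f (SeparableClosure K)) / Q) ∘
        (fun σ : Gal K => jm 2 f (ak σ) (ad Q)) = coc Q := by
      funext σ
      show mu (jm 2 f (ak σ) (ad Q)) / Q = mapJ 2 f σ.toAlgHom Q / Q
      have e1 : (mu (jm 2 f (ak σ) (ad Q)) : J 2 f (SeparableClosure K)) =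
          mapJ 2 f σ.toAlgHom Q := by
        apply ad_inj
        rw [ad_mu, ad_mapJ]
        rfl
      rw [e1]
    rw [← e]
    exact h1
  · show mapJ 2 f (σ * τ).toAlgHom Q / Q = mapJ 2 f σ.toAlgHom Q / Q *
      mapJ 2 f σ.toAlgHom (mapJ 2 f τ.toAlgHom Q / Q)
    have e : (σ * τ).toAlgHom = σ.toAlgHom.comp τ.toAlgHom := rfl
    rw [_root_.map_div, mapJ_mapJ, e, mul_comm, div_mul_div_cancel]

theorem coc_triv (E : Type) [Field E] [Algebra K E] (Q : J 2 f (SeparableClosure K)) :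
    IsTrivialOver 2 f E (coc Q) := by
  obtain ⟨ι⟩ : Nonempty (SeparableClosure K →ₐ[K] SeparableClosure E) := ⟨IsSepClosed.lift⟩
  refine ⟨ι, mapJ 2 f ι Q, fun τ σ h => ?_⟩
  show mapJ 2 f ι (mapJ 2 f σ.toAlgHom Q / Q) = _
  have e : (τ.toAlgHom.restrictScalars K).comp ι = ι.comp σ.toAlgHom := AlgHom.ext fun x => h x
  rw [_root_.map_div, mapJ_mapJ, mapJ_mapJ, e]

theorem coc_mul' (Q Q' : J 2 f (SeparableClosure K)) (σ : Gal K) :
    coc (Q * Q') σ = coc Q σ * coc Q' σ := by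
  show mapJ 2 f σ.toAlgHom (Q * Q') / (Q * Q') = _
  rw [map_mul, mul_div_mul_comm]
  rfl

theorem coc_pow' (Q : J 2 f (SeparableClosure K)) (n : ℕ) (σ : Gal K) :
    coc (Q ^ n) σ = coc Q σ ^ n := by
  show mapJ 2 f σ.toAlgHom (Q ^ n) / (Q ^ n) = (mapJ 2 f σ.toAlgHom Q / Q) ^ n
  rw [map_pow, div_pow]

theorem coc_one' (σ : Gal K) : coc (1 : J 2 f (SeparableClosure K)) σ = 1 := by
  show mapJ 2 f σ.toAlgHom 1 / 1 = 1
  rw [map_one, div_one]

variable (f)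

/-- Cocycles with values in `J[n]` which are trivial over the fields in `Pl`. -/
structure SelCocN (n : ℕ) (Pl : ∀ (E : Type) [Field E] [Algebra K E], Prop) (c : Cochain 2 f) :
    Prop where
  coc : IsCocycle 2 f c
  tor : ∀ σ, c σ ^ n = 1
  loc : ∀ (E : Type) [Field E] [Algebra K E], Pl E → IsTrivialOver 2 f E c

/-- `Sel(J, n)` -/
def SelN (n : ℕ) (Pl : ∀ (E : Type) [Field E] [Algebra K E], Prop) : Type :=
  Quot fun c c' : {c : Cochain 2 f // SelCocN f n Pl c} =>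
    ∃ R : J 2 f (SeparableClosure K), R ^ n = 1 ∧
      ∀ σ, c.1 σ = c'.1 σ * (mapJ 2 f σ.toAlgHom R / R)

variable {f}

theorem selN_eqv (n : ℕ) (Pl : ∀ (E : Type) [Field E] [Algebra K E], Prop) :
    Equivalence fun c c' : {c : Cochain 2 f // SelCocN f n Pl c} =>
      ∃ R : J 2 f (SeparableClosure K), R ^ n = 1 ∧
        ∀ σ, c.1 σ = c'.1 σ * (mapJ 2 f σ.toAlgHom R / R) := by
  refine ⟨fun c => ⟨1, one_pow _, fun σ => ?_⟩, ?_, ?_⟩
  · rw [map_one, div_one, mul_one]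
  · rintro c c' ⟨R, hR, h⟩
    refine ⟨R⁻¹, by rw [inv_pow, hR, inv_one], fun σ => ?_⟩
    rw [h σ, map_inv, inv_div_inv, mul_assoc, div_mul_div_cancel, div_self', mul_one]
  · rintro c c' c'' ⟨R, hR, h⟩ ⟨R', hR', h'⟩
    refine ⟨R' * R, by rw [mul_pow, hR, hR', one_mul], fun σ => ?_⟩
    rw [h σ, h' σ, map_mul, mul_assoc, mul_div_mul_comm]

theorem selN_exact (n : ℕ) (Pl : ∀ (E : Type) [Field E] [Algebra K E], Prop)
    {c c' : {c : Cochain 2 f // SelCocN f n Pl c}}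
    (h : (Quot.mk _ c : SelN f n Pl) = Quot.mk _ c') :
    ∃ R : J 2 f (SeparableClosure K), R ^ n = 1 ∧
      ∀ σ, c.1 σ = c'.1 σ * (mapJ 2 f σ.toAlgHom R / R) := by
  have h1 := Quot.eqvGen_exact h
  rwa [(selN_eqv (f := f) n Pl).eqvGen_iff] at h1

theorem one_coc (n : ℕ) (hg : Good 2 (-1 : K) f)
    (Pl : ∀ (E : Type) [Field E] [Algebra K E], Prop) :
    SelCocN f n Pl (coc (1 : J 2 f (SeparableClosure K))) :=
  ⟨coc_coc hg 1, fun σ => by rw [coc_one', one_pow], fun E _ _ _ => coc_triv E 1⟩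

theorem card_succ (hg : Good 2 (-1 : K) f) (n : ℕ)
    (Pl : ∀ (E : Type) [Field E] [Algebra K E], Prop) (h1 : Finite (SelN f (2 ^ n) Pl))
    (h2 : Finite (SelN f 2 Pl)) : Finite (SelN f (2 ^ (n + 1)) Pl) ∧
    Nat.card (SelN f (2 ^ (n + 1)) Pl) ≤ Nat.card (SelN f (2 ^ n) Pl) * Nat.card (SelN f 2 Pl) := by
  obtain ⟨hd1, hd2, hd3⟩ := Pool.Agent.N615.JB.dbl K (SeparableClosure K) f hg
  have hdiv : ∀ P : J 2 f (SeparableClosure K), ∃ Q : J 2 f (SeparableClosure K), Q ^ 2 = P := by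
    intro P
    obtain ⟨Q, hQ⟩ := hd3 (ad P)
    refine ⟨mu Q, ad_inj ?_⟩
    rw [ad_pow, ad_mu, hQ]
  -- the squares of the cocycles
  have hsq : ∀ c : {c : Cochain 2 f // SelCocN f (2 ^ (n + 1)) Pl c},
      SelCocN f (2 ^ n) Pl fun σ => c.1 σ ^ 2 := fun c =>
    ⟨cocyc_pow c.2.coc 2, fun σ => by
      show (c.1 σ ^ 2) ^ 2 ^ n = 1
      rw [← pow_mul, ← pow_succ']
      exact c.2.tor σ, fun E _ _ hE => triv_pow (c.2.loc E hE) 2⟩
  have hch : ∀ y : SelN f (2 ^ n) Pl, ∃ c : {c : Cochain 2 f // SelCocN f (2 ^ (n + 1)) Pl c},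
      (∃ c' : {c : Cochain 2 f // SelCocN f (2 ^ (n + 1)) Pl c},
        (Quot.mk _ ⟨_, hsq c'⟩ : SelN f (2 ^ n) Pl) = y) →
      (Quot.mk _ ⟨_, hsq c⟩ : SelN f (2 ^ n) Pl) = y := by
    intro y
    by_cases h : ∃ c' : {c : Cochain 2 f // SelCocN f (2 ^ (n + 1)) Pl c},
        (Quot.mk _ ⟨_, hsq c'⟩ : SelN f (2 ^ n) Pl) = y
    · obtain ⟨c', hc'⟩ := h
      exact ⟨c', fun _ => hc'⟩
    · exact ⟨⟨_, one_coc _ hg Pl⟩, fun h' => absurd h' h⟩
  choose cy hcy using hch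
  have hrp : ∀ e : SelN f 2 Pl, ∃ d : {c : Cochain 2 f // SelCocN f 2 Pl c},
      (Quot.mk _ d : SelN f 2 Pl) = e := fun e => Quot.exists_rep e
  choose de hde using hrp
  have hmem : ∀ (y : SelN f (2 ^ n) Pl) (e : SelN f 2 Pl),
      SelCocN f (2 ^ (n + 1)) Pl fun σ => (cy y).1 σ * (de e).1 σ := fun y e =>
    ⟨cocyc_mul (cy y).2.coc (de e).2.coc, fun σ => by
      show ((cy y).1 σ * (de e).1 σ) ^ 2 ^ (n + 1) = 1
      exact grp5 _ _ n ((cy y).2.tor σ) ((de e).2.tor σ),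
      fun E _ _ hE => triv_mul (de e).2.coc ((cy y).2.loc E hE) ((de e).2.loc E hE)⟩
  let Ψ : SelN f (2 ^ n) Pl × SelN f 2 Pl → SelN f (2 ^ (n + 1)) Pl :=
    fun x => Quot.mk _ ⟨_, hmem x.1 x.2⟩
  have hΨ : Function.Surjective Ψ := by
    intro x
    induction x using Quot.ind with
    | mk c =>
      let y : SelN f (2 ^ n) Pl := Quot.mk _ ⟨_, hsq c⟩
      obtain ⟨P, hP, hPc⟩ := selN_exact _ Pl (hcy y ⟨c, rfl⟩)
      have hPc' : ∀ σ, (cy y).1 σ ^ 2 = c.1 σ ^ 2 * coc P σ := hPc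
      obtain ⟨Q, hQ⟩ := hdiv P
      have he : SelCocN f 2 Pl fun σ => ((cy y).1 σ)⁻¹ * (c.1 σ * coc Q σ) := by
        refine ⟨cocyc_mul (cocyc_inv (cy y).2.coc) (cocyc_mul c.2.coc (coc_coc hg Q)),
          fun σ => ?_, fun E _ _ hE => triv_mul (cocyc_mul c.2.coc (coc_coc hg Q))
            (triv_inv ((cy y).2.loc E hE)) (triv_mul (coc_coc hg Q) (c.2.loc E hE)
              (coc_triv E Q))⟩
        show (((cy y).1 σ)⁻¹ * (c.1 σ * coc Q σ)) ^ 2 = 1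
        rw [mul_pow, mul_pow, inv_pow, hPc', ← coc_pow', hQ, inv_mul_cancel]
      let e : SelN f 2 Pl := Quot.mk _ ⟨_, he⟩
      obtain ⟨T, hT, hTe⟩ := selN_exact _ Pl (hde e)
      have hTe' : ∀ σ, (de e).1 σ = ((cy y).1 σ)⁻¹ * (c.1 σ * coc Q σ) * coc T σ := hTe
      refine ⟨(y, e), Quot.sound ⟨Q * T, ?_, fun σ => ?_⟩⟩
      · exact grp5 _ _ n (grp6 _ n (by rw [hQ]; exact hP)) hT
      · show (cy y).1 σ * (de e).1 σ = c.1 σ * coc (Q * T) σ
        rw [hTe', coc_mul', mul_assoc, mul_inv_cancel_left, mul_assoc]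
  haveI := h1
  haveI := h2
  refine ⟨Finite.of_surjective Ψ hΨ, ?_⟩
  rw [← Nat.card_prod]
  exact Nat.card_le_card_of_surjective Ψ hΨ

theorem card_pow (hg : Good 2 (-1 : K) f) (Pl : ∀ (E : Type) [Field E] [Algebra K E], Prop)
    (h2 : Finite (SelN f 2 Pl)) (n : ℕ) : Finite (SelN f (2 ^ n) Pl) ∧
    Nat.card (SelN f (2 ^ n) Pl) ≤ Nat.card (SelN f 2 Pl) ^ n := by
  induction n with
  | zero =>
    have hs : Subsingleton (SelN f (2 ^ 0) Pl) := by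
      refine ⟨fun x y => ?_⟩
      induction x using Quot.ind with
      | mk c =>
        induction y using Quot.ind with
        | mk c' =>
          congr 1
          refine Subtype.ext (funext fun σ => ?_)
          exact (grp7 _ (c.2.tor σ)).trans (grp7 _ (c'.2.tor σ)).symm
    refine ⟨inferInstance, ?_⟩
    rw [pow_zero]
    exact Finite.card_le_one_iff_subsingleton.2 hs
  | succ n ih =>
    obtain ⟨h3, h4⟩ := card_succ hg n Pl ih.1 h2
    refine ⟨h3, h4.trans ?_⟩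
    rw [pow_succ]
    exact Nat.mul_le_mul_right _ ih.2

theorem card_selN (Pl : ∀ (E : Type) [Field E] [Algebra K E], Prop) :
    Nat.card (SelN f 2 Pl) = Nat.card (SelH f Pl) := by
  refine Nat.card_congr (Quot.congr (Equiv.subtypeEquivRight fun c =>
    ⟨fun h => ⟨h.coc, h.tor, h.loc⟩, fun h => ⟨h.coc, h.two, h.loc⟩⟩) fun c c' => Iff.rfl)

end

section tw

open Run7.h784.TG (Fm)

/-- The twists are good. -/
theorem good_tw {k : Type} [Field k] [Finite k] (K : Type) [Field K] [Algebra k[X] K]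
    [IsFractionRing k[X] K] {g N : ℕ} {r : k[X]} {f : k[X][X]} (hf : Fm g N r f) {D : k[X]}
    (hD0 : D ≠ 0) : Good 2 (-1 : K) ((f.scaleRoots D).map (algebraMap k[X] K)) := by
  have hirk := Pool.Agent.N134.PJ.irk g k K f N r D hf.fam.ht hf.gr hf.fam.inf hD0
  have hmon : (f.scaleRoots D).Monic := (monic_scaleRoots_iff _).2 hf.fam.ht.mon
  have hodd : Odd (f.scaleRoots D).natDegree := by
    rw [natDegree_scaleRoots, hf.fam.ht.deg]
    exact ⟨g, rfl⟩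
  exact Pool.Agent.N424.JB.good_two (Run7.h886.TG.two_ne hf.two) (hmon.map _)
    (hirk.2.2 hf.fam.sq.ne_zero).2 (by rw [hmon.natDegree_map]; exact hodd)

end tw

end Run7.h886.PL
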