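import Pool.Agent.Run7.h886.PL.Port
import Pool.Agent.Run7.h784.JP.AllE
import Pool.Agent.Run7.h286.PL.AllM
import Pool.Agent.Run7.h957.JP.JS0

/-!
# Projects PRL and JPL: the assembled theorem for the ports (helper886)
-/

set_option autoImplicit false
set_option linter.all false

open Polynomial Filter IsDedekindDomain
open scoped Classical Topology

namespace Run7.h886.PL

open Run7.h784.TG Run7.h784.JP Run7.h286.PL

theorem jfinm : P_JFINM :=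
  aJFINM (Run7.h957.JP.T_JS0 aJLAST2 aCLSU (aEXS aEXI)) aNTM

theorem numbers : |∑' d, wt d - 4.76846| < 0.00001 ∧
    (∀ j : ℕ, Lw (fun d => ((2 : ℝ) ^ j) ^ d) = ∏ i ∈ Finset.Icc 1 j, (1 + (2 : ℝ) ^ i)) ∧
    Lw (fun d => (-1 : ℝ) ^ d) = 0 ∧ |Lw (fun d => (d : ℝ)) - 1.2645| < 0.0001 :=
  ⟨Run7.h160.PL.num.2.2.2.1, Run7.h547.PL.qid.2.1, Run7.h547.PL.qid.2.2.1,
    Run7.h547.PL.qid.2.2.2.2⟩

/-- A function with values in the dimensions, in other words. -/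
theorem mean_of {k : Type} [Field k] {ι : Type} [Fintype ι] (K : Type) [Field K] [Algebra k[X] K]
    [IsFractionRing k[X] K] [Finite k] [Nonempty ι] {g N : ι → ℕ} {r : ι → k[X]}
    {f : ι → k[X][X]} (h : JF g N r f) {u : k} (hu : u ≠ 0) (dd : k[X] → ι → ℕ)
    (hd : ∀ (m : ℕ), ∀ D ∈ TwJ g f u m, ∀ i, dd D i = rkJ K ((f i).scaleRoots D))
    (φ : (ι → ℕ) → ℝ) (hφ : ∃ C y : ℝ, ∀ d, |φ d| ≤ C * y ^ (∑ i, d i)) :
    Tendsto (fun m => (∑ᶠ D ∈ TwJ g f u m, φ (dd D)) / ((TwJ g f u m).ncard : ℝ)) atTop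
      (𝓝 (∑' d : ι → ℕ, φ d * ∏ i, (wt (d i) / ∑' j, wt j))) := by
  refine (mean_twJ jfinm h K hu φ hφ).congr fun m => ?_
  congr 1
  refine finsum_mem_congr rfl fun D hD => ?_
  congr 1
  funext i
  exact (hd m D hD i).symm

end Run7.h886.PL
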