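import Pool.Agent.Run7.h886.PL.Two
import Pool.Agent.Run7.h270.PL.MWB

/-!
# The exact sequence `0 → J(K) / 2 → Sel(J, 2) → Sha(J)[2] → 0` (helper886)

As an equality of orders: `#Sel(J, 2) = (J(K) : 2 J(K)) * #Sha(J)[2]`.
-/

set_option autoImplicit false
set_option linter.all false

open Polynomial IsDedekindDomain
open scoped Classical

namespace Run7.h886.PL

open Pool.Agent.N352.JB
open Pool.Agent.Y160.SE
open Pool.Agent.TH115.GD (incl rs ak)
open Pool.Agent.Y713.Jac (J mapJ Gal Cochain IsCocycle IsCoboundary IsTrivialOver)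
open Pool.Agent.N106.JB (ad mu ad_mu mu_ad ad_inj ad_mul ad_div ad_pow ad_mapJ)
open Run7.h286.PLC (SelCoc Cohom SelH)
open Run7.h270.PL.MWB (eqv exact_of coc mapJ_mapJ coc_sel)

theorem grp1 {G : Type} [CommGroup G] (a b a' b' d r' r : G) :
    (a / b)⁻¹ * (a' / b' * d * (r' / r)) = d * (r' * (a' / a) / (r * (b' / b))) := by
  have h : ∀ a b a' b' d r' r : Additive G,
      -(a - b) + (a' - b' + d + (r' - r)) = d + (r' + (a' - a) - (r + (b' - b))) := by
    intros
    abel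
  exact h a b a' b' d r' r

theorem grp2 {G : Type} [CommGroup G] (a b c e i j : G) :
    a / b * c = c * (e / j) * (a / (e * i) / (b / (j * i))) := by
  have h : ∀ a b c e i j : Additive G,
      a - b + c = c + (e - j) + (a - (e + i) - (b - (j + i))) := by
    intros
    abel
  exact h a b c e i j

section

variable {K : Type} [Field K] {f : K[X]}

theorem sha_eqv (Pl : ∀ (E : Type) [Field E] [Algebra K E], Prop) :
    Equivalence fun c c' : {c : Cochain 2 f // ShaCoc f Pl c} =>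
      ∃ R : J 2 f (SeparableClosure K), ∀ σ, c.1 σ = c'.1 σ * (mapJ 2 f σ.toAlgHom R / R) := by
  refine ⟨fun c => ⟨1, fun σ => ?_⟩, ?_, ?_⟩
  · rw [map_one, div_one, mul_one]
  · rintro c c' ⟨R, h⟩
    refine ⟨R⁻¹, fun σ => ?_⟩
    rw [h σ, map_inv, inv_div_inv, mul_assoc, div_mul_div_cancel, div_self', mul_one]
  · rintro c c' c'' ⟨R, h⟩ ⟨R', h'⟩
    refine ⟨R' * R, fun σ => ?_⟩
    rw [h σ, h' σ, map_mul, mul_assoc, mul_div_mul_comm]

theorem sha_exact (Pl : ∀ (E : Type) [Field E] [Algebra K E], Prop)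
    {c c' : {c : Cochain 2 f // ShaCoc f Pl c}}
    (h : (Quot.mk _ c : ShaH f Pl) = Quot.mk _ c') :
    ∃ R : J 2 f (SeparableClosure K), ∀ σ, c.1 σ = c'.1 σ * (mapJ 2 f σ.toAlgHom R / R) := by
  have h1 := Quot.eqvGen_exact h
  rwa [(sha_eqv (f := f) Pl).eqvGen_iff] at h1

theorem cocyc_mul {c c' : Cochain 2 f} (h : IsCocycle 2 f c) (h' : IsCocycle 2 f c') :
    IsCocycle 2 f fun σ => c σ * c' σ := by
  refine ⟨h.1.mul h'.1, fun σ τ => ?_⟩
  show c (σ * τ) * c' (σ * τ) = c σ * c' σ * mapJ 2 f σ.toAlgHom (c τ * c' τ)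
  rw [h.2 σ τ, h'.2 σ τ, map_mul, mul_mul_mul_comm]

end

theorem exists_cocycle {K : Type} [Field K] {f : K[X]} (hg : Good 2 (-1 : K) f)
    (Pl : ∀ (E : Type) [Field E] [Algebra K E], Prop) (c : {c : Cochain 2 f // ShaCoc f Pl c}) :
    ∃ (d : Cochain 2 f) (hd : SelCoc f Pl d), (Quot.mk _ c : ShaH f Pl) =
      Quot.mk _ ⟨d, ⟨hd.coc, cob_one f hd.two, hd.loc⟩⟩ := by
  obtain ⟨c'', Q', h6, h7, h8, h9⟩ := corr hg Pool.Agent.N615.JB.dbl Pool.Agent.N615.JB.lc Pl
    (fun σ => ad (c.1 σ)) (Pool.Agent.N106.JB.acoc c.2.coc)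
    (fun E _ _ hE => Pool.Agent.N106.JB.atriv (c.2.loc E hE)) (by
      have := Pool.Agent.N106.JB.acob_iff.1 c.2.two
      exact this)
  refine ⟨fun σ => mu (c'' σ), ⟨acoc' h6, fun σ => ?_, fun E _ _ hE => atriv' (h8 E hE)⟩, ?_⟩
  · apply ad_inj
    exact h7 σ
  · refine Eq.symm (Quot.sound ⟨mu (-Q'), fun σ => ?_⟩)
    apply ad_inj
    rw [ad_mul, ad_div, ad_mapJ]
    exact h9 σ

theorem coc_mul {K : Type} [Field K] {f : K[X]} (hg : Good 2 (-1 : K) f)
    (Pl : ∀ (E : Type) [Field E] [Algebra K E], Prop) (Q : J 2 f (SeparableClosure K))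
    (hfix : ∀ σ : Gal K, mapJ 2 f σ.toAlgHom (Q ^ 2) = Q ^ 2) {c : Cochain 2 f}
    (hc : SelCoc f Pl c) : SelCoc f Pl fun σ => coc Q σ * c σ := by
  have h := coc_sel hg Pl Q hfix
  refine ⟨cocyc_mul h.coc hc.coc, fun σ => ?_, fun E _ _ hE => ?_⟩
  · show (coc Q σ * c σ) ^ 2 = 1
    rw [mul_pow, h.two, hc.two, one_mul]
  · obtain ⟨ι, P, hP⟩ := hc.loc E hE
    refine ⟨ι, mapJ 2 f ι Q * P, fun τ σ hx => ?_⟩
    show mapJ 2 f ι (mapJ 2 f σ.toAlgHom Q / Q * c σ) = _
    have e : (τ.toAlgHom.restrictScalars K).comp ι = ι.comp σ.toAlgHom := AlgHom.ext fun x => hx x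
    rw [map_mul, hP τ σ hx, map_mul, mul_div_mul_comm, _root_.map_div, mapJ_mapJ, mapJ_mapJ, e]

/-- `#Sel(J, 2) = (J(K) : 2 J(K)) * #Sha(J)[2]`. -/
theorem card_sel {K : Type} [Field K] {f : K[X]} (hK2 : (2 : K) ≠ 0) (hm : f.Monic)
    (hsep : f.Separable) (hodd : Odd f.natDegree)
    (Pl : ∀ (E : Type) [Field E] [Algebra K E], Prop) :
    Nat.card (SelH f Pl) =
      (powMonoidHom 2 : J 2 f K →* _).range.index * Nat.card (ShaH f Pl) := by
  have H := hyps
  have hg := Pool.Agent.N424.JB.good_two hK2 hm hsep hodd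
  obtain ⟨hd1, hd2, hd3⟩ := Pool.Agent.N615.JB.dbl K (SeparableClosure K) f hg
  have hinj := Pool.Agent.N655.JB.inj K (SeparableClosure K) f hg
  have hfix : ∀ (x : Jac 2 f K) (σ : SeparableClosure K ≃ₐ[K] SeparableClosure K),
      jm 2 f (ak σ) (jm 2 f (incl K K (SeparableClosure K)) x) =
        jm 2 f (incl K K (SeparableClosure K)) x := by
    intro x σ
    rw [jm_jm]
    congr 1
    congr 1
    exact AlgHom.ext fun y => σ.commutes y
  have hinj' : Function.Injective (mapJ 2 f (incl K K (SeparableClosure K))) := by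
    intro x y h
    apply ad_inj
    apply hinj
    rw [← ad_mapJ, ← ad_mapJ, h]
  have hfix' : ∀ (x : J 2 f K) (σ : Gal K),
      mapJ 2 f σ.toAlgHom (mapJ 2 f (incl K K (SeparableClosure K)) x) =
        mapJ 2 f (incl K K (SeparableClosure K)) x := by
    intro x σ
    apply ad_inj
    rw [ad_mapJ, ad_mapJ]
    exact hfix (ad x) σ
  -- the points fixed by the Galois group
  have hfc : ∀ Q : J 2 f (SeparableClosure K), (∀ σ : Gal K, mapJ 2 f σ.toAlgHom Q = Q) →
      ∃ P : J 2 f K, mapJ 2 f (incl K K (SeparableClosure K)) P = Q := by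
    intro Q hQ
    obtain ⟨P, hP⟩ := fixed_class (E := K) H hg (ad Q) fun τ => by
      have e1 : (rs K τ : SeparableClosure K →ₐ[K] SeparableClosure K) = τ.toAlgHom :=
        AlgHom.ext fun x => rfl
      rw [e1, ← ad_mapJ]
      congr 1
      exact hQ τ
    refine ⟨mu P, ad_inj ?_⟩
    rw [ad_mapJ, ad_mu, hP]
  -- division by two
  have hdiv : ∀ P : J 2 f K, ∃ Q : J 2 f (SeparableClosure K),
      Q ^ 2 = mapJ 2 f (incl K K (SeparableClosure K)) P := by
    intro P
    obtain ⟨Q, hQ⟩ := hd3 (jm 2 f (incl K K (SeparableClosure K)) (ad P))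
    refine ⟨mu Q, ad_inj ?_⟩
    rw [ad_pow, ad_mu, hQ, ad_mapJ]
  choose q hq using hdiv
  have hqf : ∀ (P : J 2 f K) (σ : Gal K), mapJ 2 f σ.toAlgHom (q P ^ 2) = q P ^ 2 := by
    intro P σ
    rw [hq, hfix']
  have hrep : ∀ s : ShaH f Pl, ∃ (d : Cochain 2 f) (hd : SelCoc f Pl d),
      s = Quot.mk _ ⟨d, ⟨hd.coc, cob_one f hd.two, hd.loc⟩⟩ := by
    intro s
    induction s using Quot.ind with
    | mk c => exact exists_cocycle hg Pl c
  choose d hd hs using hrep
  let Φ : (J 2 f K ⧸ (powMonoidHom 2 : J 2 f K →* _).range) × ShaH f Pl → SelH f Pl :=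
    fun x => Quot.mk _ ⟨fun σ => coc (q x.1.out) σ * d x.2 σ,
      coc_mul hg Pl _ (hqf x.1.out) (hd x.2)⟩
  have hΦ : Function.Bijective Φ := by
    constructor
    · rintro ⟨x, s⟩ ⟨x', s'⟩ h
      obtain ⟨R, hR, hc⟩ := exact_of Pl h
      have hss : s = s' := by
        rw [hs s, hs s']
        refine Quot.sound ⟨R * (q x'.out / q x.out), fun σ => ?_⟩
        have h1 : mapJ 2 f σ.toAlgHom (q x.out) / q x.out * d s σ =
          mapJ 2 f σ.toAlgHom (q x'.out) / q x'.out * d s' σ * (mapJ 2 f σ.toAlgHom R / R) := hc σ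
        show d s σ = d s' σ * (mapJ 2 f σ.toAlgHom (R * (q x'.out / q x.out)) /
          (R * (q x'.out / q x.out)))
        rw [map_mul, _root_.map_div]
        have h2 : d s σ = (mapJ 2 f σ.toAlgHom (q x.out) / q x.out)⁻¹ *
          (mapJ 2 f σ.toAlgHom (q x'.out) / q x'.out * d s' σ * (mapJ 2 f σ.toAlgHom R / R)) := by
          rw [← h1, inv_mul_cancel_left]
        rw [h2]
        exact grp1 _ _ _ _ _ _ _
      subst hss
      have h2 : ∀ σ : Gal K, mapJ 2 f σ.toAlgHom (q x.out / (q x'.out * R)) =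
          q x.out / (q x'.out * R) := by
        intro τ
        have h1 : mapJ 2 f τ.toAlgHom (q x.out) / q x.out * d s τ =
          mapJ 2 f τ.toAlgHom (q x'.out) / q x'.out * d s τ * (mapJ 2 f τ.toAlgHom R / R) := hc τ
        rw [mul_right_comm] at h1
        replace h1 := mul_right_cancel h1
        rw [div_eq_iff_eq_mul] at h1
        rw [_root_.map_div, map_mul, h1, ← mul_div_mul_comm, div_eq_div_iff_mul_eq_mul]
        rw [mul_assoc, mul_left_comm, div_mul_cancel]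
      obtain ⟨Q0, hQ0⟩ := hfc _ h2
      have h3 : x.out = x'.out * Q0 ^ 2 := by
        apply hinj'
        rw [map_mul, map_pow, hQ0, ← hq, ← hq, div_pow, mul_pow, hR, mul_one, mul_div_cancel]
      have h4 : x = x' := by
        rw [← x.out_eq', ← x'.out_eq', eq_comm, QuotientGroup.eq]
        refine ⟨Q0, ?_⟩
        rw [h3]
        show Q0 ^ 2 = _
        rw [inv_mul_cancel_left]
      rw [h4]
    · intro y
      induction y using Quot.ind with
      | mk c =>
        let s : ShaH f Pl := Quot.mk _ ⟨c.1, ⟨c.2.coc, cob_one f c.2.two, c.2.loc⟩⟩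
        obtain ⟨R, hR⟩ := sha_exact Pl (hs s)
        have hR' : ∀ σ, c.1 σ = d s σ * (mapJ 2 f σ.toAlgHom R / R) := hR
        have hR2 : ∀ σ : Gal K, mapJ 2 f σ.toAlgHom (R ^ 2) = R ^ 2 := by
          intro σ
          have h1 := c.2.two σ
          rw [hR' σ, mul_pow, (hd s).two, one_mul, div_pow, ← map_pow, div_eq_one] at h1
          exact h1
        obtain ⟨P, hP⟩ := hfc _ hR2
        let x : J 2 f K ⧸ (powMonoidHom 2 : J 2 f K →* _).range := QuotientGroup.mk P
        have hx : ∃ Q0 : J 2 f K, x.out = P * Q0 ^ 2 := by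
          have h1 : (QuotientGroup.mk P : J 2 f K ⧸ (powMonoidHom 2 : J 2 f K →* _).range) =
            QuotientGroup.mk x.out := (x.out_eq').symm
          rw [QuotientGroup.eq] at h1
          obtain ⟨Q0, hQ0⟩ := h1
          refine ⟨Q0, ?_⟩
          have h2 : Q0 ^ 2 = P⁻¹ * x.out := hQ0
          rw [h2, mul_inv_cancel_left]
        obtain ⟨Q0, hQ0⟩ := hx
        refine ⟨(x, s), Quot.sound ?_⟩
        let I0 := mapJ 2 f (incl K K (SeparableClosure K)) Q0
        refine ⟨q x.out / (R * I0), ?_, fun σ => ?_⟩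
        · rw [div_pow, hq, hQ0, map_mul, map_pow, hP, ← mul_pow, div_self']
        · show mapJ 2 f σ.toAlgHom (q x.out) / q x.out * d s σ =
            c.1 σ * (mapJ 2 f σ.toAlgHom (q x.out / (R * I0)) / (q x.out / (R * I0)))
          rw [hR' σ, _root_.map_div, map_mul, hfix' Q0 σ]
          exact grp2 _ _ _ _ _ _
  rw [Subgroup.index, ← Nat.card_prod]
  exact (Nat.card_congr (Equiv.ofBijective Φ hΦ)).symm

end Run7.h886.PL
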