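import Pool.Agent.Run7.h784.JP.Core
import Pool.Agent.Run7.h286.PL.All
import Pool.Agent.Run7.h784.TG.SQF3
import Pool.Agent.Run7.h160.PL.NUM
import Pool.Agent.Run7.h886.PL.Seq
import Pool.Agent.Run7.h886.TG.Port

/-!
# Projects PRL and JPL: common parts of the ports (helper886)
-/

set_option autoImplicit false
set_option linter.all false

open Polynomial Filter IsDedekindDomain
open scoped Classical Topology

namespace Run7.h886.PL

open Pool.Agent.N352.PJ (IsGen Crd LocIm SelZero Fam GoodR Ht dsc)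
open Pool.Agent.N874.Jac (J mapJ Cochain Cocycle Coboundary power TrivialOver TrivialAtPrimes
  UniquelyTwoDivisible ShaTwoTrivial)
open Pool.Agent.TH115.GD (CompInf)
open Run7.h784.TG (Fm)
open Run7.h784.JP (JF TwJ dB P_JFINM mean_twJ twJ_eq ncard_twJ twJ_fin finsum_twJ jf_scale dB_ne'
  tsum_pi)
open Run7.h286.PL (wt Lw rkJ Twu one_tw sqF mem_sqF)
open Run7.h286.PLC (SelCoc Cohom SelH AllPl)
open Run7.h886.TG (InFam atInf SelZ two_ne)

section places

variable {k K : Type} [Field k] [Field K] [Algebra k[X] K] [IsFractionRing k[X] K] {F : K[X]}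

theorem loc_iff {c : Cochain F} : (∀ (E : Type) [Field E] [Algebra K E], AllPl k K E →
    Pool.Agent.Y713.Jac.IsTrivialOver 2 F E c) ↔
    TrivialAtPrimes k[X] c ∧ TrivialOver (CompInf k K) c := by
  constructor
  · intro h
    exact ⟨fun v => h _ (AllPl.fin v), h _ AllPl.inf⟩
  · rintro ⟨h1, h2⟩ E _ _ h
    cases h with
    | fin v => exact h1 v
    | inf => exact h2

/-- The order of the 2-Selmer group for a definition in other words. -/
theorem card_selH {p : Cochain F → Prop} {r : {c // p c} → {c // p c} → Prop}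
    (hp : ∀ c : Cochain F, p c ↔ Cocycle c ∧ (∀ σ, c σ ^ 2 = 1) ∧ TrivialAtPrimes k[X] c ∧
      TrivialOver (CompInf k K) c)
    (hr : ∀ c c', r c c' ↔ ∃ R : J F (SeparableClosure K), R ^ 2 = 1 ∧
      ∀ σ, c.1 σ = c'.1 σ * (mapJ F σ.toAlgHom R / R)) :
    Nat.card (Quot r) = Nat.card (SelH F (AllPl k K)) := by
  have hp' : ∀ c : Cochain F, p c ↔ SelCoc F (AllPl k K) c := by
    intro c
    rw [hp c]
    constructor
    · rintro ⟨h1, h2, h3, h4⟩
      exact ⟨h1, h2, loc_iff.2 ⟨h3, h4⟩⟩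
    · rintro ⟨h1, h2, h3⟩
      exact ⟨h1, h2, (loc_iff.1 h3).1, (loc_iff.1 h3).2⟩
  exact Nat.card_congr (Quot.congr (Equiv.subtypeEquivRight hp') fun c c' => hr c c')

/-- The order of `Sha[2]` for a definition in other words. -/
theorem card_shaH {p : Cochain F → Prop} {r : {c // p c} → {c // p c} → Prop}
    (hp : ∀ c : Cochain F, p c ↔ Cocycle c ∧ Coboundary (power c 2) ∧ TrivialAtPrimes k[X] c ∧
      TrivialOver (CompInf k K) c)
    (hr : ∀ c c', r c c' ↔ ∃ R : J F (SeparableClosure K),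
      ∀ σ, c.1 σ = c'.1 σ * (mapJ F σ.toAlgHom R / R)) :
    Nat.card (Quot r) = Nat.card (ShaH F (AllPl k K)) := by
  have hp' : ∀ c : Cochain F, p c ↔ ShaCoc F (AllPl k K) c := by
    intro c
    rw [hp c]
    constructor
    · rintro ⟨h1, h2, h3, h4⟩
      exact ⟨h1, h2, loc_iff.2 ⟨h3, h4⟩⟩
    · rintro ⟨h1, h2, h3⟩
      exact ⟨h1, h2, (loc_iff.1 h3).1, (loc_iff.1 h3).2⟩
  exact Nat.card_congr (Quot.congr (Equiv.subtypeEquivRight hp') fun c c' => hr c c')

end places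

section fam

variable {k : Type} [Field k] {ι : Type} [Fintype ι]

theorem jf_of [Finite k] (h2 : (2 : k) ≠ 0) {g N : ι → ℕ} (hg : ∀ i, 1 ≤ g i) (hN : ∀ i, 1 ≤ N i)
    {f : ι → k[X][X]} (hf : ∀ i, InFam (g i) (N i) (f i))
    (hc : ∀ i j, i ≠ j → IsCoprime (dsc (g i) (f i)) (dsc (g j) (f j))) :
    JF g N (fun i => atInf (g i) (2 * N i) (f i)) f :=
  ⟨h2, fun i => (hf i).fm (hg i) (hN i) h2, hc⟩

/-- The number of the twists. -/
theorem size_one [Finite k] {g N : ι → ℕ} {r : ι → k[X]} {f : ι → k[X][X]} (h : JF g N r f)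
    {u : k} (hu : u ≠ 0) :
    ∃ c : ℝ, 0 < c ∧ ∀ᶠ m : ℕ in atTop, c * (Nat.card k : ℝ) ^ m ≤ ((TwJ g f u m).ncard : ℝ) := by
  have hf' := jf_scale h hu
  have hB := dB_ne' hf'
  obtain ⟨hfin, c, hc, N₀, hN₀⟩ := Run7.h784.TG.T_SQF3 k h.two _ hB
  refine ⟨c, hc, ?_⟩
  filter_upwards [eventually_ge_atTop N₀] with m hm
  refine (hN₀ m hm).trans (le_of_eq ?_)
  rw [twJ_eq h hu, Set.ncard_image_of_injective _ (Run7.h286.PL.C_mul_inj hu)]

theorem size_all [Finite k] {g N : ι → ℕ} {r : ι → k[X]} {f : ι → k[X][X]} (h : JF g N r f) :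
    ∃ c : ℝ, 0 < c ∧ ∀ᶠ m : ℕ in atTop, ∀ u : k, u ≠ 0 →
      c * (Nat.card k : ℝ) ^ m ≤ ((TwJ g f u m).ncard : ℝ) := by
  have h := fun u : kˣ => size_one h u.ne_zero
  choose c hc hcm using h
  haveI : Fintype kˣ := Fintype.ofFinite _
  refine ⟨Finset.univ.inf' Finset.univ_nonempty c, ?_, ?_⟩
  · rw [Finset.lt_inf'_iff]
    exact fun u _ => hc u
  · filter_upwards [(eventually_all.2 hcm)] with m hm u hu
    refine le_trans ?_ (hm (Units.mk0 u hu))
    have h3 : Finset.univ.inf' Finset.univ_nonempty c ≤ c (Units.mk0 u hu) :=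
      Finset.inf'_le _ (Finset.mem_univ _)
    exact mul_le_mul_of_nonneg_right h3 (by positivity)

end fam

section one

variable {k : Type} [Field k] {ι : Type} [Fintype ι] (K : Type) [Field K] [Algebra k[X] K]
  [IsFractionRing k[X] K]

/-- All properties of one twist. -/
theorem one [Finite k] {g N : ι → ℕ} {r : ι → k[X]} {f : ι → k[X][X]} (h : JF g N r f)
    {u : k} (hu : u ≠ 0) {m : ℕ} {D : k[X]} (hD : D ∈ TwJ g f u m) (i : ι) :
    Nat.card (SelH (((f i).scaleRoots D).map (algebraMap k[X] K)) (AllPl k K)) =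
      2 ^ rkJ K ((f i).scaleRoots D) ∧
    (∀ P : J (((f i).scaleRoots D).map (algebraMap k[X] K)) K, P ^ 2 = 1 → P = 1) ∧
    (powMonoidHom 2 : J (((f i).scaleRoots D).map (algebraMap k[X] K)) K →* _).range.index *
      Nat.card (ShaH (((f i).scaleRoots D).map (algebraMap k[X] K)) (AllPl k K)) =
      2 ^ rkJ K ((f i).scaleRoots D) ∧
    (rkJ K ((f i).scaleRoots D) = 0 →
      UniquelyTwoDivisible (((f i).scaleRoots D).map (algebraMap k[X] K)) ∧
      ShaTwoTrivial (((f i).scaleRoots D).map (algebraMap k[X] K)) k[X] ∧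
      SelZ k[X] (((f i).scaleRoots D).map (algebraMap k[X] K))) := by
  have hf := h.fm i
  have hD' : D ∈ Twu (g i) (f i) u m := ⟨hD.1, hD.2.1, hD.2.2.1, hD.2.2.2 i⟩
  obtain ⟨t1, t2, t3, t4, t5⟩ := one_tw Run7.h286.PL.fTRU Run7.h286.PL.fZER hf K hu hD'
  have h2K : (2 : K) ≠ 0 := two_ne hf.two
  have hD0 : D ≠ 0 := hD.2.2.1.ne_zero
  have hirk := Pool.Agent.N134.PJ.irk (g i) k K (f i) (N i) (r i) D hf.fam.ht hf.gr
    hf.fam.inf hD0
  have hmon : ((f i).scaleRoots D).Monic := (monic_scaleRoots_iff _).2 hf.fam.ht.mon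
  have hodd : Odd ((f i).scaleRoots D).natDegree := by
    rw [natDegree_scaleRoots, hf.fam.ht.deg]
    exact ⟨g i, rfl⟩
  have hsep := (hirk.2.2 hf.fam.sq.ne_zero).2
  refine ⟨t1, t2, ?_, fun h0 => ?_⟩
  · have h3 := card_sel h2K (hmon.map (algebraMap k[X] K)) hsep
      (by rw [hmon.natDegree_map]; exact hodd) (AllPl k K)
    rw [← t1, h3]
    rfl
  · obtain ⟨hb, hs⟩ := t5 h0
    have hU := Pool.Agent.N874.Jac.div_of _ hb
    have hS := Pool.Agent.N874.Jac.sha_of _ k[X] hs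
    exact ⟨hU, hS, fun m c hc h1 hl => Pool.Agent.N844.QF.sel_zero h2K (hmon.map _) hsep
        (by rw [hmon.natDegree_map]; exact hodd) k[X] hU hS m c hc h1 hl⟩

theorem ncard_sep {S : Set k[X]} (hS : S.Finite) (p : k[X] → Prop) :
    ∑ᶠ D ∈ S, (if p D then (1 : ℝ) else 0) = (({D ∈ S | p D} : Set k[X]).ncard : ℝ) := by
  have h1 : {D ∈ S | p D} = ((hS.toFinset.filter p : Finset k[X]) : Set k[X]) := by
    ext D
    simp
  rw [finsum_mem_eq_finite_toFinset_sum _ hS, Finset.sum_boole, h1, Set.ncard_coe_finset]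

/-- The proportion of the twists for which all dimensions are zero. -/
theorem zero_prop (hM : P_JFINM) [Finite k] [Nonempty ι] {g N : ι → ℕ} {r : ι → k[X]}
    {f : ι → k[X][X]} (h : JF g N r f) {u : k} (hu : u ≠ 0) :
    ∀ᶠ m : ℕ in atTop, (0.2097 : ℝ) ^ Fintype.card ι * ((TwJ g f u m).ncard : ℝ) ≤
      (({D ∈ TwJ g f u m | ∀ i, rkJ K ((f i).scaleRoots D) = 0} : Set k[X]).ncard : ℝ) := by
  obtain ⟨n1, n2, n3, n4, n5⟩ := Run7.h160.PL.num
  set φ : (ι → ℕ) → ℝ := fun d => if ∀ i, d i = 0 then 1 else 0 with hφ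
  have hW : (0 : ℝ) < ∑' j, wt j := by
    have := abs_lt.1 n4
    linarith [this.1]
  have hW2 : ∑' j, wt j < 4.76847 := by
    have := abs_lt.1 n4
    linarith [this.2]
  have h1 := mean_twJ hM h K hu φ ⟨1, 1, fun d => by
    rw [one_pow, mul_one]
    simp only [hφ]
    split_ifs <;> simp⟩
  have h2 : ∑' d : ι → ℕ, φ d * ∏ i, (wt (d i) / ∑' j, wt j) =
      (1 / ∑' j, wt j) ^ Fintype.card ι := by
    rw [tsum_eq_single (fun _ => 0)]
    · rw [hφ]
      simp only [implies_true, if_true, one_mul]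
      rw [Finset.prod_const, Finset.card_univ]
      simp [wt]
    · intro d hd
      have h3 : ¬ ∀ i, d i = 0 := fun h4 => hd (funext h4)
      rw [hφ]
      simp only [if_neg h3, zero_mul]
  rw [h2] at h1
  have h4 : (0.2097 : ℝ) ^ Fintype.card ι < (1 / ∑' j, wt j) ^ Fintype.card ι := by
    refine pow_lt_pow_left₀ ?_ (by norm_num) Fintype.card_ne_zero
    rw [lt_div_iff₀ hW]
    nlinarith
  have h5 := h1.eventually (lt_mem_nhds h4)
  filter_upwards [h5] with m hm
  have h6 := ncard_sep (twJ_fin h hu m) fun D => ∀ i, rkJ K ((f i).scaleRoots D) = 0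
  rw [← h6]
  rcases Nat.eq_zero_or_pos (TwJ g f u m).ncard with h0 | h0
  · rw [h0, Nat.cast_zero, mul_zero]
    refine finsum_nonneg fun D => finsum_nonneg fun _ => ?_
    split_ifs <;> norm_num
  · have h0' : (0 : ℝ) < ((TwJ g f u m).ncard : ℝ) := by exact_mod_cast h0
    rw [lt_div_iff₀ h0'] at hm
    refine hm.le.trans (le_of_eq (finsum_congr fun D => finsum_congr fun _ => ?_))
    simp only [hφ]
    congr

end one

end Run7.h886.PL
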