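import Pool.Agent.N106.JB.Sha
import Pool.Agent.N844.QF.Sel
import Pool.Agent.Run7.h286.PL.StmC
import Pool.Agent.N615.JB.Cob
import Pool.Agent.N352.JB.All

/-!
# The 2-torsion of the Tate-Shafarevich group and the 2-Selmer group (helper886)

`Sel(J, 2) → Sha(J)[2]` is surjective: a locally trivial cocycle whose square is a coboundary is
cohomologous to a cocycle with values in `J[2]`.
-/

set_option autoImplicit false
set_option linter.all false

open Polynomial IsDedekindDomain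
open scoped Classical

namespace Run7.h886.PL

open Pool.Agent.N352.JB
open Pool.Agent.N106.JB
open Pool.Agent.Y160.SE
open Pool.Agent.TH115.GD (incl rs ak)
open Pool.Agent.Y713.Jac (J mapJ Gal Cochain IsCocycle IsCoboundary IsTrivialOver)
open Run7.h286.PLC (SelCoc Cohom SelH)

section back

variable {K : Type} [Field K] {f : K[X]}

theorem acoc' {c : Cochain 2 f} (h : ACoc fun σ => ad (c σ)) : IsCocycle 2 f c := by
  refine ⟨?_, fun σ τ => ?_⟩
  · exact h.1
  · apply ad_inj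
    have h1 := h.2 σ τ
    simp only at h1
    rw [h1, ad_mul, ad_mapJ]
    rfl

theorem atriv' {E : Type} [Field E] [Algebra K E] {c : Cochain 2 f}
    (h : ATriv E fun σ => ad (c σ)) : IsTrivialOver 2 f E c := by
  obtain ⟨ι, P, hP⟩ := h
  refine ⟨ι, mu P, fun τ σ hx => ?_⟩
  apply ad_inj
  rw [ad_mapJ, ad_div, ad_mapJ]
  exact hP τ σ hx

end back

/-- The correction of a cocycle. -/
theorem corr {K : Type} [Field K] {f : K[X]} (hg : Good 2 (-1 : K) f) (h4 : S_DBL) (h5 : S_LC)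
    (Pl : ∀ (E : Type) [Field E] [Algebra K E], Prop)
    (c : Gal K → Jac 2 f (SeparableClosure K)) (hc : ACoc c)
    (ht : ∀ (E : Type) [Field E] [Algebra K E], Pl E → ATriv E c)
    (hb : ACob fun σ => 2 • c σ) :
    ∃ (c'' : Gal K → Jac 2 f (SeparableClosure K)) (Q' : Jac 2 f (SeparableClosure K)),
      ACoc c'' ∧ (∀ σ, 2 • c'' σ = 0) ∧
      (∀ (E : Type) [Field E] [Algebra K E], Pl E → ATriv E c'') ∧
      ∀ σ, c'' σ = c σ + (jm 2 f (ak σ) (-Q') - (-Q')) := by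
  obtain ⟨Q, hQ⟩ := hb
  obtain ⟨d1, d2, d3⟩ := h4 K (SeparableClosure K) f hg
  obtain ⟨Q', hQ'⟩ := d3 Q
  have hlc : IsLocallyConstant (fun σ => c σ - (jm 2 f (ak σ) Q' - Q')) :=
    hc.1.sub ((h5 K (SeparableClosure K) f hg Q').sub (IsLocallyConstant.const Q'))
  have hjm : ∀ (σ τ : Gal K) (x : Jac 2 f (SeparableClosure K)),
      jm 2 f (ak (σ * τ)) x = jm 2 f (ak σ) (jm 2 f (ak τ) x) := by
    intro σ τ x
    rw [jm_jm]
    rfl
  refine ⟨fun σ => c σ - (jm 2 f (ak σ) Q' - Q'), Q', ⟨hlc, ?_⟩, ?_, ?_, ?_⟩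
  · intro σ τ
    show c (σ * τ) - (jm 2 f (ak (σ * τ)) Q' - Q') =
      c σ - (jm 2 f (ak σ) Q' - Q') + jm 2 f (ak σ) (c τ - (jm 2 f (ak τ) Q' - Q'))
    rw [hc.2 σ τ, hjm, map_sub, map_sub]
    abel
  · intro σ
    show 2 • (c σ - (jm 2 f (ak σ) Q' - Q')) = 0
    have := hQ σ
    simp only at this
    rw [smul_sub, smul_sub, this, ← map_nsmul, hQ']
    abel
  · intro E _ _ hE
    obtain ⟨ι, P, hP⟩ := ht E hE
    refine ⟨ι, P - jm 2 f ι Q', fun τ σ hx => ?_⟩
    show jm 2 f ι (c σ - (jm 2 f (ak σ) Q' - Q')) = _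
    have hcomm : jm 2 f ι (jm 2 f (ak σ) Q') = jm 2 f (rs K τ) (jm 2 f ι Q') := by
      rw [jm_jm, jm_jm]
      have e : ι.comp (ak σ) = (rs K τ).comp ι := AlgHom.ext fun x => (hx x).symm
      rw [e]
    rw [map_sub, map_sub, hcomm, hP τ σ hx, map_sub]
    abel
  · intro σ
    show c σ - (jm 2 f (ak σ) Q' - Q') = c σ + (jm 2 f (ak σ) (-Q') - (-Q'))
    rw [map_neg]
    abel

/-- Locally trivial cocycles whose square is a coboundary. -/
structure ShaCoc {K : Type} [Field K] (f : K[X])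
    (Pl : ∀ (E : Type) [Field E] [Algebra K E], Prop) (c : Cochain 2 f) : Prop where
  coc : IsCocycle 2 f c
  two : IsCoboundary 2 f fun σ => c σ ^ 2
  loc : ∀ (E : Type) [Field E] [Algebra K E], Pl E → IsTrivialOver 2 f E c

/-- `Sha(J)[2]` -/
def ShaH {K : Type} [Field K] (f : K[X]) (Pl : ∀ (E : Type) [Field E] [Algebra K E], Prop) : Type :=
  Quot fun c c' : {c : Cochain 2 f // ShaCoc f Pl c} =>
    ∃ R : J 2 f (SeparableClosure K), ∀ σ, c.1 σ = c'.1 σ * (mapJ 2 f σ.toAlgHom R / R)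

theorem cob_one {K : Type} [Field K] (f : K[X]) {c : Cochain 2 f} (h : ∀ σ, c σ ^ 2 = 1) :
    IsCoboundary 2 f fun σ => c σ ^ 2 := by
  refine ⟨1, fun σ => ?_⟩
  show c σ ^ 2 = _
  rw [h, map_one, div_one]

/-- The order of `Sha(J)[2]` is at most the order of the 2-Selmer group. -/
theorem card_sha_le {K : Type} [Field K] {f : K[X]} (h2 : (2 : K) ≠ 0) (hm : f.Monic)
    (hs : f.Separable) (ho : Odd f.natDegree) (h4 : S_DBL) (h5 : S_LC)
    (Pl : ∀ (E : Type) [Field E] [Algebra K E], Prop) [Finite (SelH f Pl)] :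
    Finite (ShaH f Pl) ∧ Nat.card (ShaH f Pl) ≤ Nat.card (SelH f Pl) := by
  have hg : Good 2 (-1 : K) f := good2 h2 hm hs ho
  let φ : SelH f Pl → ShaH f Pl := Quot.map
    (fun c => ⟨c.1, ⟨c.2.coc, cob_one f c.2.two, c.2.loc⟩⟩) (fun c c' h => by
      obtain ⟨R, _, hR⟩ := h
      exact ⟨R, hR⟩)
  have hφ : Function.Surjective φ := by
    intro x
    induction x using Quot.ind with
    | mk c =>
      obtain ⟨c'', Q', h6, h7, h8, h9⟩ := corr hg h4 h5 Pl (fun σ => ad (c.1 σ)) (acoc c.2.coc)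
        (fun E _ _ hE => atriv (c.2.loc E hE)) (by
          have := acob_iff.1 c.2.two
          exact this)
      refine ⟨Quot.mk _ ⟨fun σ => mu (c'' σ), ⟨acoc' h6, fun σ => ?_, fun E _ _ hE =>
        atriv' (h8 E hE)⟩⟩, ?_⟩
      · apply ad_inj
        exact h7 σ
      · refine Quot.sound ⟨mu (-Q'), fun σ => ?_⟩
        apply ad_inj
        rw [ad_mul, ad_div, ad_mapJ]
        exact h9 σ
  exact ⟨Finite.of_surjective φ hφ, Nat.card_le_card_of_surjective φ hφ⟩

end Run7.h886.PL
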